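import Mathlib
import Pool.Agent.H748R3.Stat

/-!
# A compact linearly ordered space without the Blumberg property: the ordered set

`W` is a well-order like `ω₁` and `S` a subset of `W`. The points of the space `XS S` are the
subsets `x` of `S` such that a limit point `δ` of `x` belongs to `x` if it belongs to `S`, and is an
upper bound of `x` if it does not belong to `S`. The order is the lexicographic one.
-/

set_option autoImplicit false

open Set

namespace Pool.Agent.TH577.Blum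

variable {W : Type} [LinearOrder W]

/-- `δ` is a limit point of `x`. -/
def Lim (x : Set W) (δ : W) : Prop := (∃ b ∈ x, b < δ) ∧ ∀ a < δ, ∃ b ∈ x, a < b ∧ b < δ

/-- The points. -/
def IsX (S x : Set W) : Prop :=
  x ⊆ S ∧ ∀ δ, Lim x δ → (δ ∈ S → δ ∈ x) ∧ (δ ∉ S → ∀ b ∈ x, b < δ)

/-- The lexicographic order. -/
def Lt (x y : Set W) : Prop := ∃ ξ, (∀ a < ξ, (a ∈ x ↔ a ∈ y)) ∧ ξ ∉ x ∧ ξ ∈ y

/-- The space. -/
@[ext] structure XS (S : Set W) : Type where
  /-- the set -/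
  val : Set W
  /-- the condition -/
  prop : IsX S val

theorem Lim.congr {x y : Set W} {δ : W} (h : ∀ a < δ, (a ∈ x ↔ a ∈ y)) (hx : Lim x δ) :
    Lim y δ := by
  obtain ⟨⟨b, hb, hb'⟩, h2⟩ := hx
  refine ⟨⟨b, (h b hb').1 hb, hb'⟩, fun a ha => ?_⟩
  obtain ⟨c, hc, h1, h3⟩ := h2 a ha
  exact ⟨c, (h c h3).1 hc, h1, h3⟩

theorem Lt.irrefl (x : Set W) : ¬ Lt x x := fun ⟨_, _, h1, h2⟩ => h1 h2

theorem Lt.trans {x y z : Set W} (h : Lt x y) (h' : Lt y z) : Lt x z := by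
  obtain ⟨ξ, h1, h2, h3⟩ := h
  obtain ⟨η, h4, h5, h6⟩ := h'
  rcases lt_trichotomy ξ η with h | h | h
  · exact ⟨ξ, fun a ha => (h1 a ha).trans (h4 a (ha.trans h)), h2, (h4 ξ h).1 h3⟩
  · subst h; exact absurd h3 h5
  · exact ⟨η, fun a ha => (h1 a (ha.trans h)).trans (h4 a ha), fun hh => h5 ((h1 η h).1 hh), h6⟩

theorem exists_diff [WellFoundedLT W] {x y : Set W} (h : x ≠ y) :
    ∃ ξ, (∀ a < ξ, (a ∈ x ↔ a ∈ y)) ∧ ¬ (ξ ∈ x ↔ ξ ∈ y) := by
  have hne : {ξ | ¬ (ξ ∈ x ↔ ξ ∈ y)}.Nonempty := by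
    by_contra hcon
    rw [not_nonempty_iff_eq_empty] at hcon
    apply h
    ext a
    by_contra hh
    have : a ∈ {ξ | ¬ (ξ ∈ x ↔ ξ ∈ y)} := hh
    rw [hcon] at this
    exact this
  refine ⟨WellFounded.min (wellFounded_lt (α := W)) _ hne, fun a ha => ?_,
    WellFounded.min_mem (wellFounded_lt (α := W)) _ hne⟩
  by_contra hh
  exact WellFounded.not_lt_min (wellFounded_lt (α := W)) _ (x := a) hh ha

theorem Lt.trichotomous [WellFoundedLT W] (x y : Set W) : Lt x y ∨ x = y ∨ Lt y x := by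
  by_cases h : x = y
  · exact Or.inr (Or.inl h)
  obtain ⟨ξ, h1, h2⟩ := exists_diff h
  by_cases hx : ξ ∈ x
  · have hy : ξ ∉ y := fun hy => h2 ⟨fun _ => hy, fun _ => hx⟩
    exact Or.inr (Or.inr ⟨ξ, fun a ha => (h1 a ha).symm, hy, hx⟩)
  · have hy : ξ ∈ y := by
      by_contra hy
      exact h2 ⟨fun h => absurd h hx, fun h => absurd h hy⟩
    exact Or.inl ⟨ξ, h1, hx, hy⟩

/-! ### Suprema -/

/-- `a` is maximal in `A` below `ξ` -/
def Mx (A : Set (Set W)) (a : Set W) (ξ : W) : Prop :=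
  ∀ a' ∈ A, ∀ η < ξ, (∀ b < η, (b ∈ a ↔ b ∈ a')) → η ∈ a' → η ∈ a

/-- the lexicographic supremum -/
def lsup (A : Set (Set W)) : Set W := {ξ | ∃ a ∈ A, Mx A a ξ ∧ ξ ∈ a}

theorem Mx.mono {A : Set (Set W)} {a : Set W} {ξ η : W} (h : Mx A a ξ) (hη : η ≤ ξ) :
    Mx A a η := fun a' ha' ζ hζ => h a' ha' ζ (hζ.trans_le hη)

theorem Mx.congr {A : Set (Set W)} {a a' : Set W} {ξ : W} (h : Mx A a ξ)
    (h' : ∀ b < ξ, (b ∈ a ↔ b ∈ a')) : Mx A a' ξ := by
  intro c hc η hη h1 h2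
  exact (h' η hη).1 (h c hc η hη (fun b hb => (h' b (hb.trans hη)).trans (h1 b hb)) h2)

theorem Mx.agree [WellFoundedLT W] {A : Set (Set W)} {a a' : Set W} {ξ : W} (ha : a ∈ A)
    (ha' : a' ∈ A) (h : Mx A a ξ) (h' : Mx A a' ξ) : ∀ b < ξ, (b ∈ a ↔ b ∈ a') := by
  by_contra hcon
  have hne : {b | b < ξ ∧ ¬ (b ∈ a ↔ b ∈ a')}.Nonempty := by
    push Not at hcon
    obtain ⟨b, hb, hb'⟩ := hcon
    refine ⟨b, hb, ?_⟩
    tauto
  set m := WellFounded.min (wellFounded_lt (α := W)) _ hne with hm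
  have hm1 : m < ξ ∧ ¬ (m ∈ a ↔ m ∈ a') := WellFounded.min_mem (wellFounded_lt (α := W)) _ hne
  have hm2 : ∀ b < m, (b ∈ a ↔ b ∈ a') := by
    intro b hb
    by_contra hh
    exact WellFounded.not_lt_min (wellFounded_lt (α := W)) _ (x := b)
      (show b ∈ {b | b < ξ ∧ ¬ (b ∈ a ↔ b ∈ a')} from ⟨hb.trans hm1.1, hh⟩) hb
  exact hm1.2 ⟨h' a ha m hm1.1 (fun b hb => (hm2 b hb).symm), h a' ha' m hm1.1 hm2⟩

theorem Mx.lsup_iff [WellFoundedLT W] {A : Set (Set W)} {a : Set W} {ξ : W} (ha : a ∈ A)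
    (h : Mx A a ξ) : ∀ b < ξ, (b ∈ lsup A ↔ b ∈ a) := by
  intro η hη
  constructor
  · rintro ⟨a', ha', h1, h2⟩
    exact h a' ha' η hη (Mx.agree ha ha' (h.mono hη.le) h1) h2
  · intro hb
    exact ⟨a, ha, h.mono hη.le, hb⟩

theorem le_lsup [WellFoundedLT W] {A : Set (Set W)} {a : Set W} (ha : a ∈ A) :
    ¬ Lt (lsup A) a := by
  rintro ⟨ξ, h1, h2, h3⟩
  have hM : Mx A a ξ := by
    by_contra hcon
    unfold Mx at hcon
    push Not at hcon
    have hne : {η | η < ξ ∧ ∃ a' ∈ A, (∀ b < η, (b ∈ a ↔ b ∈ a')) ∧ η ∈ a' ∧ η ∉ a}.Nonempty := by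
      obtain ⟨a', ha', η, hη, h4, h5, h6⟩ := hcon
      exact ⟨η, hη, a', ha', h4, h5, h6⟩
    set m := WellFounded.min (wellFounded_lt (α := W)) _ hne with hm
    obtain ⟨hm1, a', ha', hm2, hm3, hm4⟩ := WellFounded.min_mem (wellFounded_lt (α := W)) _ hne
    have hm5 : Mx A a m := by
      intro c hc η hη h4 h5
      by_contra h6
      exact WellFounded.not_lt_min (wellFounded_lt (α := W)) _ (x := η)
        (show η ∈ {η | η < ξ ∧ ∃ a' ∈ A, (∀ b < η, (b ∈ a ↔ b ∈ a')) ∧ η ∈ a' ∧ η ∉ a} from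
          ⟨hη.trans hm1, c, hc, h4, h5, h6⟩) hη
    exact hm4 ((h1 m hm1).1 ⟨a', ha', hm5.congr hm2, hm3⟩)
  exact h2 ⟨a, ha, hM, h3⟩

theorem lsup_le [WellFoundedLT W] {A : Set (Set W)} {y : Set W} (hy : ∀ a ∈ A, ¬ Lt y a) :
    ¬ Lt y (lsup A) := by
  rintro ⟨ξ, h1, h2, a, ha, hM, h3⟩
  exact hy a ha ⟨ξ, fun b hb => (h1 b hb).trans (hM.lsup_iff ha b hb), h2, h3⟩

/-- Suprema exist in `XS S`. -/
theorem exists_sup [WellFoundedLT W] (S : Set W) (A : Set (Set W)) (hA : ∀ a ∈ A, IsX S a) :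
    ∃ g, IsX S g ∧ (∀ a ∈ A, ¬ Lt g a) ∧ ∀ y, IsX S y → (∀ a ∈ A, ¬ Lt y a) → ¬ Lt y g := by
  classical
  set f := lsup A with hf
  have fS : f ⊆ S := by
    rintro ξ ⟨a, ha, -, h⟩
    exact (hA a ha).1 h
  -- bad limit points outside `S`
  have hout : ∀ δ, Lim f δ → δ ∉ S → ∀ b ∈ f, b < δ := by
    intro δ hδ hδS b hb
    by_contra hbδ
    rw [not_lt] at hbδ
    obtain ⟨a, ha, hM, hba⟩ := hb
    have hL : Lim a δ := hδ.congr fun c hc => hM.lsup_iff ha c (hc.trans_le hbδ)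
    exact absurd (((hA a ha).2 δ hL).2 hδS b hba) (not_lt.2 hbδ)
  by_cases hgood : ∀ δ, Lim f δ → δ ∈ S → δ ∈ f
  · exact ⟨f, ⟨fS, fun δ hδ => ⟨hgood δ hδ, hout δ hδ⟩⟩, fun a ha => le_lsup ha,
      fun y _ hy => lsup_le hy⟩
  push Not at hgood
  obtain ⟨δ, hδ, hδS, hδf⟩ := hgood
  -- `f` lies below `δ`
  have key : ∀ ε, Lim f ε → ε ∈ S → ε ∉ f → ∀ b ∈ f, b < ε := by
    intro ε hε hεS hεf b hb
    by_contra hbε
    rw [not_lt] at hbε
    obtain ⟨a, ha, hM, hba⟩ := hb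
    have hL : Lim a ε := hε.congr fun c hc => hM.lsup_iff ha c (hc.trans_le hbε)
    have hεa : ε ∈ a := ((hA a ha).2 ε hL).1 hεS
    rcases hbε.lt_or_eq with h | h
    · exact hεf ((hM.lsup_iff ha ε h).2 hεa)
    · subst h; exact hεf ⟨a, ha, hM, hba⟩
  have hfδ := key δ hδ hδS hδf
  refine ⟨insert δ f, ⟨insert_subset hδS fS, ?_⟩, ?_, ?_⟩
  · intro ε hε
    have hle : ε ≤ δ := by
      by_contra hlt
      rw [not_le] at hlt
      obtain ⟨b, hb, h1, h2⟩ := hε.2 δ hlt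
      rcases mem_insert_iff.1 hb with h | h
      · subst h; exact lt_irrefl _ h1
      · exact lt_asymm h1 (hfδ b h)
    have hfε : Lim f ε := hε.congr fun c hc => by
      rw [mem_insert_iff]
      constructor
      · rintro (h | h)
        · subst h; exact absurd hc (not_lt.2 hle)
        · exact h
      · exact Or.inr
    rcases hle.lt_or_eq with h | h
    · obtain ⟨b, hb, h1, -⟩ := hδ.2 ε h
      refine ⟨fun hεS => ?_, fun hεS => ?_⟩
      · by_contra hεf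
        have hεf' : ε ∉ f := fun h => hεf (mem_insert_of_mem _ h)
        exact lt_asymm h1 (key ε hfε hεS hεf' b hb)
      · exact absurd (hout ε hfε hεS b hb) (not_lt.2 h1.le)
    · subst h
      exact ⟨fun _ => mem_insert _ _, fun h => absurd hδS h⟩
  · intro a ha hlt
    have h1 : Lt f (insert δ f) := ⟨δ, fun c hc => by
      rw [mem_insert_iff]
      constructor
      · exact Or.inr
      · rintro (h | h)
        · subst h; exact absurd hc (lt_irrefl _)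
        · exact h, hδf, mem_insert _ _⟩
    exact le_lsup ha (h1.trans hlt)
  · intro y hyX hy hlt
    rcases Lt.trichotomous y f with h | h | h
    · exact lsup_le hy h
    · subst h
      exact hδf ((hyX.2 δ hδ).1 hδS)
    · obtain ⟨ξ, h1, h2, h3⟩ := h
      obtain ⟨ζ, h4, h5, h6⟩ := hlt
      rcases lt_or_ge ξ δ with hξ | hξ
      · -- first difference below `δ`
        have h7 : Lt (insert δ f) y := ⟨ξ, fun c hc => by
          rw [mem_insert_iff, ← h1 c hc]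
          constructor
          · rintro (h | h)
            · subst h; exact absurd hc (not_lt.2 hξ.le)
            · exact h
          · exact Or.inr, fun h => by
            rcases mem_insert_iff.1 h with h | h
            · exact absurd h hξ.ne
            · exact h2 h, h3⟩
        exact Lt.irrefl _ (h7.trans ⟨ζ, h4, h5, h6⟩)
      · have hLy : Lim y δ := hδ.congr fun c hc => h1 c (hc.trans_le hξ)
        have hδy : δ ∈ y := (hyX.2 δ hLy).1 hδS
        rcases mem_insert_iff.1 h6 with h | h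
        · subst h; exact h5 hδy
        · have hζδ : ζ < δ := hfδ ζ h
          exact h5 ((h1 ζ (hζδ.trans_le hξ)).1 h)

end Pool.Agent.TH577.Blum
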