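import Mathlib
import Pool.Agent.TH577.Blum1

/-!
# A compact linearly ordered space without the Blumberg property: the order
-/

set_option autoImplicit false
set_option linter.unusedSectionVars false
set_option linter.style.haveILetI false

open Set Topology

namespace Pool.Agent.TH577.Blum

/-- A linear order all of whose subsets have suprema is compact. -/
theorem compact_of_lub (X : Type) [i : LinearOrder X] [TopologicalSpace X] [OrderTopology X]
    (h : ∀ A : Set X, ∃ g, IsLUB A g) : CompactSpace X := by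
  letI j : ConditionallyCompleteLinearOrder X :=
    { i, (LinearOrder.toLattice : Lattice X) with
      sSup := fun A => (h A).choose
      sInf := fun A => (h (lowerBounds A)).choose
      isLUB_csSup := fun s _ _ => (h s).choose_spec
      isGLB_csInf := fun s _ _ => isLUB_lowerBounds.1 (h (lowerBounds s)).choose_spec
      csSup_of_not_bddAbove := fun s hs =>
        absurd ⟨(h univ).choose, fun x _ => (h univ).choose_spec.1 (mem_univ x)⟩ hs
      csInf_of_not_bddBelow := fun s hs =>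
        absurd ⟨(h ∅).choose, fun x _ => (h ∅).choose_spec.2 (by simp [upperBounds])⟩ hs }
  obtain ⟨b, hb⟩ := h ∅
  obtain ⟨t, ht⟩ := h univ
  constructor
  have : (univ : Set X) = Icc b t := by
    ext x
    simp only [mem_univ, mem_Icc, true_iff]
    exact ⟨hb.2 (by simp [upperBounds]), ht.1 (mem_univ x)⟩
  rw [this]
  exact isCompact_Icc

variable {W : Type} [LinearOrder W] [WellFoundedLT W] {S : Set W}

instance : IsStrictTotalOrder (XS S) (fun x y => Lt x.1 y.1) where
  irrefl x := Lt.irrefl x.1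
  trans _ _ _ h h' := h.trans h'
  trichotomous x y h1 h2 := by
    rcases Lt.trichotomous x.1 y.1 with h | h | h
    · exact absurd h h1
    · exact XS.ext h
    · exact absurd h h2

noncomputable instance : LinearOrder (XS S) :=
  letI := Classical.decRel (fun x y : XS S => Lt x.1 y.1)
  linearOrderOfSTO (fun x y : XS S => Lt x.1 y.1)

theorem lt_def (x y : XS S) : x < y ↔ Lt x.1 y.1 := Iff.rfl

theorem exists_lub (A : Set (XS S)) : ∃ g, IsLUB A g := by
  obtain ⟨g, hg, h1, h2⟩ := exists_sup S (XS.val '' A) (by rintro _ ⟨a, -, rfl⟩; exact a.2)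
  refine ⟨⟨g, hg⟩, ?_, ?_⟩
  · intro a ha
    exact not_lt.1 fun h => h1 _ ⟨a, ha, rfl⟩ ((lt_def _ _).1 h)
  · intro y hy
    refine not_lt.1 fun h => h2 _ y.2 ?_ ((lt_def _ _).1 h)
    rintro _ ⟨a, ha, rfl⟩ hlt
    exact absurd (hy ha) (not_le.2 ((lt_def y a).2 hlt))

/-- The empty set. -/
def bot (S : Set W) : XS S := ⟨∅, by simp, fun δ h => by obtain ⟨⟨b, hb, _⟩, _⟩ := h; exact absurd hb (by simp)⟩

theorem bot_le (x : XS S) : bot S ≤ x := by
  refine not_lt.1 fun h => ?_
  obtain ⟨ξ, -, -, h⟩ := (lt_def _ _).1 h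
  exact h

/-! ### Nodes: closed bounded subsets of `S` -/

variable (S) in
/-- A nonempty closed bounded subset of `S`, with its maximum. -/
structure Node where
  x : Set W
  μ : W
  hx : IsX S x
  hμ : μ ∈ x
  hle : ∀ b ∈ x, b ≤ μ

/-- End extension. -/
def Node.Ext (c d : Node S) : Prop := ∀ a ≤ c.μ, (a ∈ d.x ↔ a ∈ c.x)

/-- The points which end-extend `c`. -/
def Node.cone (c : Node S) : Set (XS S) := {x | ∀ a ≤ c.μ, (a ∈ x.1 ↔ a ∈ c.x)}

theorem Node.Ext.refl (c : Node S) : c.Ext c := fun _ _ => Iff.rfl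

theorem Node.Ext.le {c d : Node S} (h : c.Ext d) : c.μ ≤ d.μ :=
  d.hle _ ((h c.μ le_rfl).2 c.hμ)

theorem Node.Ext.trans {c d e : Node S} (h : c.Ext d) (h' : d.Ext e) : c.Ext e :=
  fun a ha => (h' a (ha.trans h.le)).trans (h a ha)

theorem Node.Ext.cone {c d : Node S} (h : c.Ext d) : d.cone ⊆ c.cone :=
  fun _ hx a ha => (hx a (ha.trans h.le)).trans (h a ha)

/-- A node as a point. -/
def Node.pt (c : Node S) : XS S := ⟨c.x, c.hx⟩

theorem Node.pt_mem (c : Node S) : c.pt ∈ c.cone := fun _ _ => Iff.rfl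

theorem Node.ext_of_cone {c d : Node S} (h : d.cone ⊆ c.cone) : c.Ext d := h d.pt_mem

/-- The node `(x ∩ (-∞, γ]) ∪ {σ}`. -/
def mkNode (x : XS S) (γ σ : W) (hγ : ∀ δ ≤ γ, Lim x.1 δ → δ ∈ S) (hσ : σ ∈ S) (h : γ < σ) :
    Node S where
  x := insert σ (x.1 ∩ Iic γ)
  μ := σ
  hx := by
    refine ⟨insert_subset hσ fun a ha => x.2.1 ha.1, fun δ hδ => ?_⟩
    have hδγ : δ ≤ γ := by
      by_contra hcon
      rw [not_le] at hcon
      obtain ⟨b, hb, h1, h2⟩ := hδ.2 γ hcon
      rcases mem_insert_iff.1 hb with hb | hb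
      · subst hb
        obtain ⟨c, hc, h3, h4⟩ := hδ.2 b h2
        rcases mem_insert_iff.1 hc with hc | hc
        · subst hc; exact lt_irrefl _ h3
        · exact absurd hc.2 (not_le.2 (h.trans h3))
      · exact absurd hb.2 (not_le.2 h1)
    have hL : Lim x.1 δ := hδ.congr fun c hc => by
      rw [mem_insert_iff]
      constructor
      · rintro (h' | h')
        · subst h'; exact absurd (hc.trans_le hδγ) (not_lt.2 h.le)
        · exact h'.1
      · intro h'
        exact Or.inr ⟨h', (hc.trans_le hδγ).le⟩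
    have hδS := hγ δ hδγ hL
    exact ⟨fun _ => mem_insert_of_mem _ ⟨(x.2.2 δ hL).1 hδS, hδγ⟩, fun h' => absurd hδS h'⟩
  hμ := mem_insert _ _
  hle := by
    intro b hb
    rcases mem_insert_iff.1 hb with hb | hb
    · exact hb.le
    · exact hb.2.trans h.le

theorem mem_mkNode_cone {x y : XS S} {γ σ : W} {hγ : ∀ δ ≤ γ, Lim x.1 δ → δ ∈ S} {hσ : σ ∈ S}
    {h : γ < σ} (hy : y ∈ (mkNode x γ σ hγ hσ h).cone) : ∀ a ≤ γ, (a ∈ y.1 ↔ a ∈ x.1) := by
  intro a ha
  rw [hy a (ha.trans h.le)]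
  change a ∈ insert σ (x.1 ∩ Iic γ) ↔ _
  rw [mem_insert_iff]
  constructor
  · rintro (h' | h')
    · subst h'; exact absurd ha (not_le.2 h)
    · exact h'.1
  · intro h'
    exact Or.inr ⟨h', ha⟩

theorem Node.lim_mem (c : Node S) {δ : W} (hδ : δ ≤ c.μ) (h : Lim c.x δ) : δ ∈ S := by
  by_contra hS
  exact absurd ((c.hx.2 δ h).2 hS c.μ c.hμ) (not_lt.2 hδ)

/-- The node `c ∪ {σ}`. -/
def Node.app (c : Node S) (σ : W) (hσ : σ ∈ S) (h : c.μ < σ) : Node S :=
  mkNode c.pt c.μ σ (fun _ hδ hL => c.lim_mem hδ hL) hσ h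

theorem Node.app_mem (c : Node S) (σ : W) (hσ : σ ∈ S) (h : c.μ < σ) {a : W} :
    a ∈ (c.app σ hσ h).x ↔ a = σ ∨ a ∈ c.x := by
  change a ∈ insert σ (c.x ∩ Iic c.μ) ↔ _
  rw [mem_insert_iff]
  constructor
  · rintro (h | h)
    · exact Or.inl h
    · exact Or.inr h.1
  · rintro (h | h)
    · exact Or.inl h
    · exact Or.inr ⟨h, c.hle a h⟩

theorem Node.app_ext (c : Node S) (σ : W) (hσ : σ ∈ S) (h : c.μ < σ) : c.Ext (c.app σ hσ h) := by
  intro a ha
  rw [c.app_mem]
  constructor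
  · rintro (h' | h')
    · subst h'; exact absurd ha (not_le.2 h)
    · exact h'
  · exact Or.inr

theorem Node.app_μ (c : Node S) (σ : W) (hσ : σ ∈ S) (h : c.μ < σ) : (c.app σ hσ h).μ = σ := rfl

end Pool.Agent.TH577.Blum
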