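import Mathlib
import Pool.Agent.TH577.Blum2

/-!
# A compact linearly ordered space without the Blumberg property: topology
-/

set_option autoImplicit false
set_option linter.unusedSectionVars false
set_option linter.style.haveILetI false

open Set Topology

namespace Pool.Agent.TH577.Blum

open Pool.Agent.H748R3

variable {W : Type} [LinearOrder W] [WellFoundedLT W] {S : Set W}

theorem Node.pt_le (d : Node S) {y : XS S} (hy : y ∈ d.cone) : d.pt ≤ y := by
  refine not_lt.1 fun h => ?_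
  obtain ⟨ξ, -, h2, h3⟩ := (lt_def _ _).1 h
  exact h2 ((hy ξ (d.hle ξ h3)).2 h3)

theorem Node.cone_convex (c : Node S) {p q y : XS S} (hp : p ∈ c.cone) (hq : q ∈ c.cone)
    (h1 : p < y) (h2 : y < q) : y ∈ c.cone := by
  intro a ha
  by_contra hcon
  have hne : {a | a ≤ c.μ ∧ ¬ (a ∈ y.1 ↔ a ∈ c.x)}.Nonempty := ⟨a, ha, hcon⟩
  set m := WellFounded.min (wellFounded_lt (α := W)) _ hne with hm
  obtain ⟨hm1, hm2⟩ : m ≤ c.μ ∧ ¬ (m ∈ y.1 ↔ m ∈ c.x) :=
    WellFounded.min_mem (wellFounded_lt (α := W)) _ hne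
  have hm3 : ∀ b < m, (b ∈ y.1 ↔ b ∈ c.x) := by
    intro b hb
    by_contra hh
    exact WellFounded.not_lt_min (wellFounded_lt (α := W)) _ (x := b)
      (show b ∈ {a | a ≤ c.μ ∧ ¬ (a ∈ y.1 ↔ a ∈ c.x)} from ⟨hb.le.trans hm1, hh⟩) hb
  by_cases hmy : m ∈ y.1
  · have hmc : m ∉ c.x := fun h => hm2 ⟨fun _ => h, fun _ => hmy⟩
    refine lt_asymm h2 ((lt_def _ _).2 ⟨m, fun b hb => ?_, ?_, hmy⟩)
    · rw [hq b (hb.le.trans hm1), hm3 b hb]
    · rw [hq m hm1]; exact hmc
  · have hmc : m ∈ c.x := by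
      by_contra h
      exact hm2 ⟨fun h' => absurd h' hmy, fun h' => absurd h' h⟩
    refine lt_asymm h1 ((lt_def _ _).2 ⟨m, fun b hb => ?_, hmy, ?_⟩)
    · rw [hp b (hb.le.trans hm1), hm3 b hb]
    · rw [hp m hm1]; exact hmc

theorem Node.app_lt (c : Node S) {σ σ' : W} (hσ : σ ∈ S) (hσ' : σ' ∈ S) (h : c.μ < σ)
    (h' : c.μ < σ') (hlt : σ < σ') {y : XS S} (hy : y ∈ (c.app σ' hσ' h').cone) :
    y < (c.app σ hσ h).pt := by
  refine (lt_def _ _).2 ⟨σ, fun b hb => ?_, ?_, ?_⟩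
  · rw [hy b (show b ≤ σ' from (hb.trans hlt).le)]
    change b ∈ (c.app σ' hσ' h').x ↔ b ∈ (c.app σ hσ h).x
    rw [c.app_mem, c.app_mem]
    constructor
    · rintro (h | h)
      · subst h; exact absurd hlt (lt_asymm hb)
      · exact Or.inr h
    · rintro (h | h)
      · subst h; exact absurd hb (lt_irrefl _)
      · exact Or.inr h
  · rw [hy σ (show σ ≤ σ' from hlt.le), c.app_mem]
    rintro (h | h)
    · exact absurd h hlt.ne
    · exact absurd (c.hle _ h) (not_le.2 ‹c.μ < σ›)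
  · change σ ∈ (c.app σ hσ h).x
    rw [c.app_mem]
    exact Or.inl rfl

section top

variable [TopologicalSpace (XS S)] [OrderTopology (XS S)]
  (hS : ∀ a : W, ∃ σ ∈ S, a < σ)

include hS

/-- Each cone contains a nonempty open set. -/
theorem Node.exists_open (c : Node S) : ∃ V : Set (XS S), IsOpen V ∧ V.Nonempty ∧ V ⊆ c.cone := by
  obtain ⟨σ, hσ, h1⟩ := hS c.μ
  obtain ⟨σ', hσ', h2⟩ := hS σ
  obtain ⟨σ'', hσ'', h3⟩ := hS σ'
  have h1' : c.μ < σ' := h1.trans h2
  refine ⟨Ioo (c.app σ' hσ' h1').pt (c.app σ hσ h1).pt, isOpen_Ioo, ?_, ?_⟩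
  · have h3' : (c.app σ' hσ' h1').μ < σ'' := h3
    refine ⟨((c.app σ' hσ' h1').app σ'' hσ'' h3').pt, ?_, ?_⟩
    · refine lt_of_le_of_ne (Node.pt_le _ (((c.app σ' hσ' h1').app_ext σ'' hσ'' h3').cone
        (Node.pt_mem _))) fun heq => ?_
      have h4 : σ'' ∈ ((c.app σ' hσ' h1').app σ'' hσ'' h3').pt.1 := by
        change σ'' ∈ ((c.app σ' hσ' h1').app σ'' hσ'' h3').x
        rw [Node.app_mem]
        exact Or.inl rfl
      rw [← heq] at h4
      exact absurd ((c.app σ' hσ' h1').hle σ'' h4) (not_le.2 h3)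
    · exact c.app_lt hσ hσ' h1 h1' h2 (((c.app σ' hσ' h1').app_ext σ'' hσ'' h3').cone
        (Node.pt_mem _))
  · rintro y ⟨hy1, hy2⟩
    exact c.cone_convex ((c.app_ext σ' hσ' h1').cone (Node.pt_mem _))
      ((c.app_ext σ hσ h1).cone (Node.pt_mem _)) hy1 hy2

/-- Each nonempty open set contains a cone. -/
theorem exists_cone_subset [hW : Nonempty W] {U : Set (XS S)} (hU : IsOpen U) (hne : U.Nonempty) :
    ∃ c : Node S, c.cone ⊆ U := by
  obtain ⟨x, hx⟩ := hne
  have hnhds : U ∈ 𝓝 x := hU.mem_nhds hx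
  -- if `l < x` then the limit points of `x` up to the first difference are in `S`
  have low : ∀ l : XS S, l < x → ∃ γ, (∀ δ ≤ γ, Lim x.1 δ → δ ∈ S) ∧
      ∀ γ' ≥ γ, ∀ y : XS S, (∀ a ≤ γ', (a ∈ y.1 ↔ a ∈ x.1)) → l < y := by
    intro l hl
    obtain ⟨ξ, h1, h2, h3⟩ := (lt_def _ _).1 hl
    refine ⟨ξ, fun δ hδ hL => ?_, fun γ' hγ' y hy => (lt_def _ _).2 ⟨ξ, fun a ha => ?_, h2, ?_⟩⟩
    · by_contra hδS
      exact absurd ((x.2.2 δ hL).2 hδS ξ h3) (not_lt.2 hδ)
    · rw [hy a (ha.le.trans hγ')]; exact h1 a ha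
    · rw [hy ξ hγ']; exact h3
  have upp : ∀ u : XS S, x < u → ∃ γ, (∀ δ ≤ γ, Lim x.1 δ → δ ∈ S) ∧
      ∀ γ' ≥ γ, ∀ y : XS S, (∀ a ≤ γ', (a ∈ y.1 ↔ a ∈ x.1)) → y < u := by
    intro u hu
    obtain ⟨ξ, h1, h2, h3⟩ := (lt_def _ _).1 hu
    refine ⟨ξ, fun δ hδ hL => ?_, fun γ' hγ' y hy => (lt_def _ _).2 ⟨ξ, fun a ha => ?_, ?_, h3⟩⟩
    · by_contra hδS
      have hLu : Lim u.1 δ := hL.congr fun c hc => h1 c (hc.trans_le hδ)
      exact absurd ((u.2.2 δ hLu).2 hδS ξ h3) (not_lt.2 hδ)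
    · rw [hy a (ha.le.trans hγ')]; exact h1 a ha
    · rw [hy ξ hγ']; exact h2
  by_cases hl : ∃ l, l < x
  · by_cases hu : ∃ u, x < u
    · obtain ⟨l, u, ⟨hlx, hxu⟩, hsub⟩ := (mem_nhds_iff_exists_Ioo_subset' hl hu).1 hnhds
      obtain ⟨γ1, h1, h2⟩ := low l hlx
      obtain ⟨γ2, h3, h4⟩ := upp u hxu
      have hγ : ∀ δ ≤ max γ1 γ2, Lim x.1 δ → δ ∈ S := by
        intro δ hδ hL
        rcases le_max_iff.1 hδ with h | h
        · exact h1 δ h hL
        · exact h3 δ h hL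
      obtain ⟨σ, hσ, hσγ⟩ := hS (max γ1 γ2)
      refine ⟨mkNode x _ σ hγ hσ hσγ, fun y hy => hsub ⟨?_, ?_⟩⟩
      · exact h2 _ (le_max_left _ _) y (mem_mkNode_cone hy)
      · exact h4 _ (le_max_right _ _) y (mem_mkNode_cone hy)
    · obtain ⟨l, hlx, hsub⟩ := (mem_nhdsLE_iff_exists_Ioc_subset' hl.choose_spec).1
        (mem_nhdsWithin_of_mem_nhds hnhds)
      obtain ⟨γ1, h1, h2⟩ := low l hlx
      obtain ⟨σ, hσ, hσγ⟩ := hS γ1
      refine ⟨mkNode x _ σ h1 hσ hσγ, fun y hy => hsub ⟨?_, ?_⟩⟩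
      · exact h2 _ le_rfl y (mem_mkNode_cone hy)
      · exact not_lt.1 fun h => hu ⟨y, h⟩
  · by_cases hu : ∃ u, x < u
    · obtain ⟨u, hxu, hsub⟩ := (mem_nhdsGE_iff_exists_Ico_subset' hu.choose_spec).1
        (mem_nhdsWithin_of_mem_nhds hnhds)
      obtain ⟨γ1, h1, h2⟩ := upp u hxu
      obtain ⟨σ, hσ, hσγ⟩ := hS γ1
      refine ⟨mkNode x _ σ h1 hσ hσγ, fun y hy => hsub ⟨?_, ?_⟩⟩
      · exact not_lt.1 fun h => hl ⟨y, h⟩
      · exact h2 _ le_rfl y (mem_mkNode_cone hy)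
    · -- the space has more than one point
      exfalso
      obtain ⟨w⟩ := hW
      obtain ⟨σ, hσ, hσw⟩ := hS w
      let d : Node S := mkNode (bot S) w σ (fun δ _ hL => by
        obtain ⟨⟨b, hb, _⟩, _⟩ := hL
        exact absurd hb (by simp [bot])) hσ hσw
      have hlt : bot S < d.pt := by
        refine (lt_def _ _).2 ⟨σ, fun a ha => ?_, by simp [bot], ?_⟩
        · change a ∈ (∅ : Set W) ↔ a ∈ insert σ ((∅ : Set W) ∩ Iic w)
          simp [ha.ne]
        · change σ ∈ insert σ ((∅ : Set W) ∩ Iic w)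
          exact mem_insert _ _
      exact hu ⟨d.pt, lt_of_le_of_lt (not_lt.1 fun h => hl ⟨bot S, h⟩) hlt⟩

/-- Deciding an open set. -/
theorem Node.decide [Nonempty W] (c : Node S) {U : Set (XS S)} (hU : IsOpen U) :
    ∃ d : Node S, c.Ext d ∧ (d.cone ⊆ U ∨ Disjoint d.cone U) := by
  obtain ⟨V, hV, hne, hsub⟩ := c.exists_open hS
  by_cases h : (V ∩ U).Nonempty
  · obtain ⟨d, hd⟩ := exists_cone_subset hS (hV.inter hU) h
    exact ⟨d, Node.ext_of_cone fun y hy => hsub (hd hy).1, Or.inl fun y hy => (hd hy).2⟩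
  · obtain ⟨d, hd⟩ := exists_cone_subset hS hV hne
    refine ⟨d, Node.ext_of_cone fun y hy => hsub (hd hy), Or.inr ?_⟩
    rw [Set.disjoint_left]
    intro y hy hyU
    exact h ⟨y, hd hy, hyU⟩

end top

/-! ### Fusion -/

/-- One step of the construction. -/
def stp (F : Node S → ℕ → Node S) (G : Node S → W → Node S) (c : Node S) : ℕ ⊕ W → Node S
  | Sum.inl n => F c n
  | Sum.inr γ => G c γ

/-- Fusion along a stationary set. -/
theorem fusion (hW : OmegaOneLike W) (hst : Stat S) (F : Node S → ℕ → Node S)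
    (hF : ∀ (c : Node S) (n : ℕ), c.Ext (F c n)) (G : Node S → W → Node S) (hG : ∀ (c : Node S) (γ : W), c.Ext (G c γ))
    (hGγ : ∀ (c : Node S) (γ : W), γ < (G c γ).μ) (c0 : Node S) :
    ∃ d : Node S, c0.Ext d ∧ ∀ n, ∃ c : Node S, (F c n).Ext d := by
  classical
  -- the bounding function
  have hb : ∀ t : Finset W, ∃ b : W, (∀ a ∈ t, a < b) ∧
      ∀ l : List (ℕ ⊕ t), ((l.map (Sum.map id Subtype.val)).foldl (stp F G) c0).μ < b := by
    intro t
    obtain ⟨b, hb⟩ := hW.bdd ((t : Set W) ∪ range fun l : List (ℕ ⊕ t) =>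
      ((l.map (Sum.map id Subtype.val)).foldl (stp F G) c0).μ)
      (t.countable_toSet.union (countable_range _))
    exact ⟨b, fun a ha => hb a (Or.inl ha), fun l => hb _ (Or.inr ⟨l, rfl⟩)⟩
  choose h hh1 hh2 using hb
  obtain ⟨δ, hδS, hδ⟩ := hst h
  have hne : (Iio δ).Nonempty := ⟨h ∅, hδ ∅ (by simp)⟩
  obtain ⟨e, he⟩ := (hW.initial δ).exists_eq_range hne
  have heδ : ∀ n, e n < δ := fun n => by
    have : e n ∈ range e := ⟨n, rfl⟩
    rw [← he] at this
    exact this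
  -- the lists
  let L : ℕ → List (ℕ ⊕ W) := fun n => Nat.rec [] (fun n l => l ++ [Sum.inr (e n), Sum.inl n]) n
  have hL : ∀ n, L (n + 1) = L n ++ [Sum.inr (e n), Sum.inl n] := fun n => rfl
  let c : ℕ → Node S := fun n => (L n).foldl (stp F G) c0
  have hc : ∀ n, c (n + 1) = F (G (c n) (e n)) n := by
    intro n
    change (L (n + 1)).foldl (stp F G) c0 = _
    rw [hL, List.foldl_append]
    rfl
  have hext1 : ∀ n, (c n).Ext (c (n + 1)) := fun n => by
    rw [hc]; exact (hG _ _).trans (hF _ _)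
  have hext : ∀ n m, n ≤ m → (c n).Ext (c m) := by
    intro n m hnm
    induction m, hnm using Nat.le_induction with
    | base => exact Node.Ext.refl _
    | succ m _ ih => exact ih.trans (hext1 m)
  have hgt : ∀ n, e n < (c (n + 1)).μ := fun n => by
    rw [hc]; exact (hGγ _ _).trans_le (hF _ _).le
  have hmem : ∀ n, ∀ s ∈ L n, ∀ γ, s = Sum.inr γ → γ ∈ (Finset.range n).image e := by
    intro n
    induction n with
    | zero => intro s hs; exact absurd hs (by simp [L])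
    | succ n ih =>
      intro s hs γ hγ
      rw [hL, List.mem_append] at hs
      rcases hs with hs | hs
      · obtain ⟨i, hi, hi'⟩ := Finset.mem_image.1 (ih s hs γ hγ)
        exact Finset.mem_image.2 ⟨i, Finset.mem_range.2 (by have := Finset.mem_range.1 hi; omega), hi'⟩
      · simp only [List.mem_cons, List.not_mem_nil, or_false] at hs
        rcases hs with hs | hs
        · rw [hs] at hγ
          have := Sum.inr.inj hγ
          exact Finset.mem_image.2 ⟨n, Finset.mem_range.2 (by omega), this⟩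
        · rw [hs] at hγ
          cases hγ
  have hlt : ∀ n, (c n).μ < δ := by
    intro n
    set t := (Finset.range n).image e with ht
    have h1 : h t < δ := hδ t (by
      intro a ha
      obtain ⟨i, -, rfl⟩ := Finset.mem_image.1 ha
      exact heδ i)
    have h2 : ∃ l : List (ℕ ⊕ t), l.map (Sum.map id Subtype.val) = L n := by
      have : ∀ l : List (ℕ ⊕ W), (∀ s ∈ l, ∀ γ, s = Sum.inr γ → γ ∈ t) →
          ∃ l' : List (ℕ ⊕ t), l'.map (Sum.map id Subtype.val) = l := by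
        intro l
        induction l with
        | nil => intro _; exact ⟨[], rfl⟩
        | cons a l ih =>
          intro h'
          obtain ⟨l', hl'⟩ := ih fun s hs => h' s (List.mem_cons_of_mem _ hs)
          rcases a with a | a
          · exact ⟨Sum.inl a :: l', by simp [hl']⟩
          · exact ⟨Sum.inr ⟨a, h' _ List.mem_cons_self a rfl⟩ :: l', by simp [hl']⟩
      exact this _ (hmem n)
    obtain ⟨l, hl⟩ := h2
    have h3 := hh2 t l
    rw [hl] at h3
    exact h3.trans h1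
  -- the limit
  have hC : ∀ n, ∀ a ≤ (c n).μ, (a ∈ insert δ {a | ∃ n, a ∈ (c n).x} ↔ a ∈ (c n).x) := by
    intro n a ha
    rw [mem_insert_iff]
    constructor
    · rintro (h' | ⟨m, hm⟩)
      · subst h'; exact absurd ha (not_le.2 (hlt n))
      · rcases le_total m n with h' | h'
        · exact (hext m n h' a ((c m).hle a hm)).2 hm
        · exact (hext n m h' a ha).1 hm
    · intro h'
      exact Or.inr ⟨n, h'⟩
  have hle : ∀ b ∈ insert δ {a | ∃ n, a ∈ (c n).x}, b ≤ δ := by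
    intro b hb
    rcases mem_insert_iff.1 hb with hb | ⟨n, hn⟩
    · exact hb.le
    · exact ((c n).hle b hn).trans (hlt n).le
  let d : Node S :=
    { x := insert δ {a | ∃ n, a ∈ (c n).x}
      μ := δ
      hx := by
        refine ⟨insert_subset hδS ?_, fun ε hε => ?_⟩
        · rintro a ⟨n, hn⟩
          exact (c n).hx.1 hn
        · have hεδ : ε ≤ δ := by
            by_contra hcon
            rw [not_le] at hcon
            obtain ⟨b, hb, h1, -⟩ := hε.2 δ hcon
            exact absurd (hle b hb) (not_le.2 h1)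
          rcases hεδ.lt_or_eq with h' | h'
          · have : ε ∈ range e := by rw [← he]; exact h'
            obtain ⟨n, hn⟩ := this
            have hεμ : ε < (c (n + 1)).μ := hn ▸ hgt n
            have hLim : Lim (c (n + 1)).x ε := hε.congr fun a ha => hC (n + 1) a (ha.trans hεμ).le
            have hεS := (c (n + 1)).lim_mem hεμ.le hLim
            exact ⟨fun _ => mem_insert_of_mem _ ⟨n + 1, ((c (n + 1)).hx.2 ε hLim).1 hεS⟩,
              fun h'' => absurd hεS h''⟩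
          · subst h'
            exact ⟨fun _ => mem_insert _ _, fun h'' => absurd hδS h''⟩
      hμ := mem_insert _ _
      hle := hle }
  refine ⟨d, fun a ha => hC 0 a ha, fun n => ⟨G (c n) (e n), ?_⟩⟩
  rw [← hc]
  exact fun a ha => hC (n + 1) a ha

end Pool.Agent.TH577.Blum
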