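import Mathlib
import Pool.Agent.TH577.Blum3

/-!
# A compact linearly ordered space without the Blumberg property: the end
-/

set_option autoImplicit false
set_option linter.unusedSectionVars false
set_option linter.style.haveILetI false

open Set Topology

namespace Pool.Agent.TH577.Blum

open Pool.Agent.H748R3 Cardinal

variable {W : Type} [LinearOrder W] [WellFoundedLT W] {S : Set W}

theorem unbounded_of_stat (hst : Stat S) (a : W) : ∃ σ ∈ S, a < σ := by
  obtain ⟨δ, hδ, h⟩ := hst (fun _ => a)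
  exact ⟨δ, hδ, h ∅ (by simp)⟩

theorem bounded (hW : OmegaOneLike W) (hst : Stat Sᶜ) (x : XS S) : ∃ β, ∀ b ∈ x.1, b < β := by
  by_contra hcon
  push Not at hcon
  have h1 : ∀ t : Finset W, ∃ b ∈ x.1, ∀ a ∈ t, a < b := by
    intro t
    obtain ⟨b0, hb0⟩ := hW.bdd (t : Set W) t.countable_toSet
    obtain ⟨b, hb, hb'⟩ := hcon b0
    exact ⟨b, hb, fun a ha => (hb0 a ha).trans_le hb'⟩
  choose h hh1 hh2 using h1
  obtain ⟨δ, hδS, hδ⟩ := hst h
  have hL : Lim x.1 δ := by
    refine ⟨⟨h ∅, hh1 _, hδ ∅ (by simp)⟩, fun a ha => ⟨h {a}, hh1 _, hh2 _ a (by simp), ?_⟩⟩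
    exact hδ {a} (by simpa using ha)
  obtain ⟨b, hb, hb'⟩ := hcon δ
  exact absurd ((x.2.2 δ hL).2 hδS b hb) (not_lt.2 hb')

/-- There are at most continuum many points. -/
theorem exists_injection (hW : OmegaOneLike W) (hst : Stat Sᶜ) (hcard : #W ≤ 𝔠) :
    ∃ f : XS S → ℝ, Function.Injective f := by
  have he : ∀ β : W, ∃ e : W → ℕ, InjOn e (Iio β) := fun β =>
    Set.countable_iff_exists_injOn.mp (hW.initial β)
  choose e he using he
  choose β hβ using bounded hW hst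
  have h1 : Function.Injective (fun x : XS S => ((β x, e (β x) '' x.1) : W × Set ℕ)) := by
    intro x y hxy
    simp only [Prod.mk.injEq] at hxy
    obtain ⟨h1, h2⟩ := hxy
    apply XS.ext
    have hx : x.1 ⊆ Iio (β x) := fun b hb => hβ x b hb
    have hy : y.1 ⊆ Iio (β x) := fun b hb => by rw [h1]; exact hβ y b hb
    rw [← h1] at h2
    exact ((he (β x)).image_eq_image_iff hx hy).1 h2
  have h2 : #(W × Set ℕ) ≤ #ℝ := by
    rw [mk_prod, mk_real]
    simp only [lift_id, mk_set, mk_nat, two_power_aleph0]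
    calc #W * 𝔠 ≤ 𝔠 * 𝔠 := mul_le_mul_left hcard _
      _ = 𝔠 := continuum_mul_self
  obtain ⟨g⟩ := h2
  exact ⟨fun x => g ((β x, e (β x) '' x.1) : W × Set ℕ), g.injective.comp h1⟩

theorem not_continuousOn [Nonempty W] [TopologicalSpace (XS S)] [OrderTopology (XS S)]
    (hW : OmegaOneLike W) (hst : Stat S) (f : XS S → ℝ) (hf : Function.Injective f)
    (D : Set (XS S)) (hD : (interior (closure D)).Nonempty) : ¬ ContinuousOn f D := by
  intro hcont
  have hS := unbounded_of_stat hst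
  -- countably many open sets
  have hpre : ∀ q : ℚ × ℚ, ∃ U : Set (XS S), IsOpen U ∧
      f ⁻¹' (Ioo (q.1 : ℝ) q.2) ∩ D = U ∩ D := fun q =>
    continuousOn_iff'.1 hcont _ isOpen_Ioo
  choose U hU1 hU2 using hpre
  obtain ⟨en, hen⟩ := exists_surjective_nat (ℚ × ℚ)
  -- fusion
  choose F hF1 hF2 using fun (c : Node S) (n : ℕ) => c.decide hS (hU1 (en n))
  have hG : ∀ (c : Node S) (γ : W), ∃ d : Node S, c.Ext d ∧ γ < d.μ := by
    intro c γ
    obtain ⟨σ, hσ, h⟩ := hS (max c.μ γ)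
    exact ⟨c.app σ hσ ((le_max_left _ _).trans_lt h), c.app_ext _ _ _,
      (le_max_right _ _).trans_lt h⟩
  choose G hG1 hG2 using hG
  obtain ⟨c0, hc0⟩ := exists_cone_subset hS isOpen_interior hD
  obtain ⟨d, hd0, hd⟩ := fusion hW hst F hF1 G hG1 hG2 c0
  -- two points of `D` in the cone of `d`
  have hdec : ∀ q, d.cone ⊆ U q ∨ Disjoint d.cone (U q) := by
    intro q
    obtain ⟨n, rfl⟩ := hen q
    obtain ⟨c, hc⟩ := hd n
    rcases hF2 c n with h | h
    · exact Or.inl (hc.cone.trans h)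
    · exact Or.inr (h.mono_left hc.cone)
  have hconst : ∀ x ∈ d.cone, ∀ y ∈ d.cone, x ∈ D → y ∈ D → x = y := by
    intro x hx y hy hxD hyD
    by_contra hne
    have hfne : f x ≠ f y := fun h => hne (hf h)
    obtain ⟨p, q, h1, h2, h3⟩ : ∃ p q : ℚ, (p : ℝ) < f x ∧ f x < q ∧ ¬ (f y ∈ Ioo (p : ℝ) q) := by
      rcases lt_or_gt_of_ne hfne with h | h
      · obtain ⟨q, hq1, hq2⟩ := exists_rat_btwn h
        obtain ⟨p, hp⟩ := exists_rat_lt (f x)
        exact ⟨p, q, hp, hq1, fun h' => lt_asymm h'.2 hq2⟩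
      · obtain ⟨p, hp1, hp2⟩ := exists_rat_btwn h
        obtain ⟨q, hq⟩ := exists_rat_gt (f x)
        exact ⟨p, q, hp2, hq, fun h' => lt_asymm h'.1 hp1⟩
    have hxU : x ∈ U (p, q) := by
      have : x ∈ f ⁻¹' (Ioo (p : ℝ) q) ∩ D := ⟨⟨h1, h2⟩, hxD⟩
      rw [hU2 (p, q)] at this
      exact this.1
    rcases hdec (p, q) with h | h
    · have : y ∈ U (p, q) ∩ D := ⟨h hy, hyD⟩
      rw [← hU2 (p, q)] at this
      exact h3 this.1
    · exact Set.disjoint_left.1 h hx hxU
  obtain ⟨σ, hσ, h1⟩ := hS d.μ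
  obtain ⟨σ', hσ', h2⟩ := hS σ
  have h1' : d.μ < σ' := h1.trans h2
  obtain ⟨V, hV, hVne, hVsub⟩ := (d.app σ hσ h1).exists_open hS
  obtain ⟨V', hV', hVne', hVsub'⟩ := (d.app σ' hσ' h1').exists_open hS
  have hmeet : ∀ V : Set (XS S), IsOpen V → V.Nonempty → V ⊆ d.cone → ∃ x, x ∈ V ∧ x ∈ D := by
    rintro V hV ⟨x, hx⟩ hsub
    obtain ⟨y, hy1, hy2⟩ := mem_closure_iff.1 (interior_subset (hc0 (hd0.cone (hsub hx)))) V hV hx
    exact ⟨y, hy1, hy2⟩
  obtain ⟨x, hxV, hxD⟩ := hmeet V hV hVne (hVsub.trans (d.app_ext σ hσ h1).cone)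
  obtain ⟨y, hyV, hyD⟩ := hmeet V' hV' hVne' (hVsub'.trans (d.app_ext σ' hσ' h1').cone)
  have hxc := hVsub hxV
  have hyc := hVsub' hyV
  have heq := hconst x ((d.app_ext σ hσ h1).cone hxc) y ((d.app_ext σ' hσ' h1').cone hyc) hxD hyD
  subst heq
  -- `σ` belongs to the first point but not to the second
  have h3 : σ ∈ x.1 := by
    rw [hxc σ le_rfl, d.app_mem]
    exact Or.inl rfl
  rw [hyc σ (show σ ≤ σ' from h2.le), d.app_mem] at h3
  rcases h3 with h3 | h3
  · exact absurd h3 h2.ne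
  · exact absurd (d.hle σ h3) (not_le.2 h1)

/-- A compact linearly ordered space without the Blumberg property. -/
theorem main : ∃ (X : Type) (_ : LinearOrder X) (_ : TopologicalSpace X),
    Nonempty X ∧ OrderTopology X ∧ CompactSpace X ∧ ∃ f : X → ℝ, Function.Injective f ∧
      ∀ D : Set X, (interior (closure D)).Nonempty → ¬ ContinuousOn f D := by
  have hW := omegaOneLike_toType
  haveI := hW.wf
  obtain ⟨S, hst, hst'⟩ := hW.bistationary
  letI : TopologicalSpace (XS S) := Preorder.topology _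
  haveI : OrderTopology (XS S) := ⟨rfl⟩
  haveI : Nonempty (Cardinal.aleph 1).ord.ToType := by
    obtain ⟨δ, -, -⟩ := hst' (fun t => if h : t.Nonempty then t.max' h else
      (hW.bdd ∅ countable_empty).choose)
    exact ⟨δ⟩
  obtain ⟨f, hf⟩ := exists_injection (S := S) hW hst' (by
    rw [mk_ord_toType]
    exact aleph_one_le_continuum)
  exact ⟨XS S, inferInstance, inferInstance, ⟨bot S⟩, inferInstance, compact_of_lub _ exists_lub,
    f, hf, not_continuousOn hW hst f hf⟩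

end Pool.Agent.TH577.Blum
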