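import Mathlib

/-!
# An adequate Corson compact space on which the measures are not countably tight at a Dirac measure

`Lam` is the unit interval with Lebesgue measure, `e : ι → [0,1]` is onto, where `ι` is a linearly
ordered set all of whose proper initial segments are countable. `H a` is a compact set of measure
larger than one half which misses all `e b`, `b < a`.
-/

set_option autoImplicit false

open Set Filter Topology MeasureTheory

namespace Pool.Agent.TH577.Tight

variable {ι : Type} [LinearOrder ι]

/-- A compact set of measure more than `1/2` which avoids a countable set. -/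
theorem exists_H (C : Set unitInterval) (hC : C.Countable) :
    ∃ K : Set unitInterval, IsCompact K ∧ Disjoint K C ∧
      (1 / 2 : ENNReal) < (volume : Measure unitInterval) K := by
  have h1 : (volume : Measure unitInterval) Cᶜ = 1 := by
    rw [measure_compl hC.measurableSet (by simp), hC.measure_zero]
    simp
  have h2 : (1 / 2 : ENNReal) < (volume : Measure unitInterval) Cᶜ := by
    rw [h1]
    simp
  obtain ⟨K, hK, hKc, hKm⟩ := hC.measurableSet.compl.exists_lt_isCompact h2
  exact ⟨K, hKc, disjoint_left.2 fun x hx hxC => hK hx hxC, hKm⟩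

/-- The data of the construction. -/
structure Dat (ι : Type) [LinearOrder ι] where
  e : ι → unitInterval
  sur : Function.Surjective e
  cnt : ∀ a : ι, (Iic a).Countable
  unb : ∀ C : Set ι, C.Countable → ∃ a, ∀ b ∈ C, b < a
  H : ι → Set unitInterval
  comp : ∀ a, IsCompact (H a)
  miss : ∀ a b, b < a → e b ∉ H a
  big : ∀ a, (1 / 2 : ENNReal) < (volume : Measure unitInterval) (H a)

theorem exists_dat (e : ι → unitInterval) (sur : Function.Surjective e)
    (cnt : ∀ a : ι, (Iic a).Countable) (unb : ∀ C : Set ι, C.Countable → ∃ a, ∀ b ∈ C, b < a) :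
    Nonempty (Dat ι) := by
  have h : ∀ a : ι, ∃ K : Set unitInterval, IsCompact K ∧ Disjoint K (e '' Iio a) ∧
      (1 / 2 : ENNReal) < (volume : Measure unitInterval) K := fun a =>
    exists_H _ (((cnt a).mono Iio_subset_Iic_self).image e)
  choose H h1 h2 h3 using h
  exact ⟨⟨e, sur, cnt, unb, H, h1, fun a b hab hb => disjoint_left.1 (h2 a) hb
    (mem_image_of_mem e hab), h3⟩⟩

namespace Dat

variable (D : Dat ι)

/-- The set of the characteristic functions of the sets `I` such that the family `H a`, `a ∈ I`, is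
centered. -/
def car : Set (ι → Bool) :=
  {x | ∀ F : Finset ι, (∀ a ∈ F, x a = true) → (⋂ a ∈ F, D.H a).Nonempty}

theorem isClosed_car : IsClosed D.car := by
  have : D.car = ⋂ F : Finset ι, {x : ι → Bool | (∀ a ∈ F, x a = true) →
      (⋂ a ∈ F, D.H a).Nonempty} := by
    ext x
    simp [car]
  rw [this]
  refine isClosed_iInter fun F => ?_
  by_cases h : (⋂ a ∈ F, D.H a).Nonempty
  · simp [h]
  · have : {x : ι → Bool | (∀ a ∈ F, x a = true) → (⋂ a ∈ F, D.H a).Nonempty} =
        (⋂ a ∈ F, {x : ι → Bool | x a = true})ᶜ := by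
      ext x
      simp only [mem_ofPred_eq, mem_compl_iff, mem_iInter]
      exact ⟨fun hx hx' => h (hx hx'), fun hx hx' => absurd hx' hx⟩
    rw [this, isClosed_compl_iff]
    refine isOpen_biInter_finset fun a _ => ?_
    have : {x : ι → Bool | x a = true} = (fun x : ι → Bool => x a) ⁻¹' {true} := rfl
    rw [this]
    exact (isOpen_discrete _).preimage (continuous_apply a)

/-- The compact space. -/
def X : Type := D.car

instance : TopologicalSpace D.X := inferInstanceAs (TopologicalSpace D.car)
instance : T2Space D.X := inferInstanceAs (T2Space D.car)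
instance : CompactSpace D.X := isCompact_iff_compactSpace.1 D.isClosed_car.isCompact
instance : MeasurableSpace D.X := borel D.X
instance : BorelSpace D.X := ⟨rfl⟩

/-- coordinates -/
def co (a : ι) (x : D.X) : Bool := x.1 a

theorem continuous_co (a : ι) : Continuous (D.co a) :=
  (continuous_apply a).comp continuous_subtype_val

theorem continuous_of_co {Y : Type*} [TopologicalSpace Y] {f : Y → D.X}
    (h : ∀ a, Continuous fun y => D.co a (f y)) : Continuous f :=
  Continuous.subtype_mk (continuous_pi h) _

theorem tendsto_of_co {Y : Type*} {l : Filter Y} {f : Y → D.X} {x : D.X}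
    (h : ∀ a, ∀ᶠ y in l, D.co a (f y) = D.co a x) : Tendsto f l (𝓝 x) := by
  refine tendsto_subtype_rng.2 (tendsto_pi_nhds.2 fun a => ?_)
  refine tendsto_nhds_of_eventually_eq ?_
  exact h a

/-- Points of the space have countable support. -/
theorem countable_supp (x : D.X) : {a | D.co a x = true}.Countable := by
  have h : (univ ∩ ⋂ a : {a | D.co a x = true}, D.H a).Nonempty := by
    refine isCompact_univ.inter_iInter_nonempty _ (fun a => (D.comp a).isClosed) fun u => ?_
    obtain ⟨t, ht⟩ := x.2 (u.image Subtype.val) (by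
      intro a ha
      obtain ⟨b, -, rfl⟩ := Finset.mem_image.1 ha
      exact b.2)
    refine ⟨t, mem_univ _, mem_iInter₂.2 fun a ha => ?_⟩
    exact mem_iInter₂.1 ht a.1 (Finset.mem_image_of_mem _ ha)
  obtain ⟨t, -, ht⟩ := h
  obtain ⟨b, rfl⟩ := D.sur t
  refine (D.cnt b).mono fun a ha => ?_
  rw [mem_Iic]
  by_contra hlt
  exact D.miss a b (not_le.1 hlt) (mem_iInter.1 ht ⟨a, ha⟩)

/-- The space is Fréchet–Urysohn. -/
theorem seq (S : Set D.X) (y : D.X) (hy : y ∈ closure S) :
    ∃ u : ℕ → D.X, (∀ n, u n ∈ S) ∧ Tendsto u atTop (𝓝 y) := by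
  classical
  have hg : ∀ F : Finset ι, ∃ s ∈ S, ∀ a ∈ F, D.co a s = D.co a y := by
    intro F
    have hO : IsOpen (⋂ a ∈ F, (D.co a) ⁻¹' {D.co a y}) :=
      isOpen_biInter_finset fun a _ => (isOpen_discrete _).preimage (D.continuous_co a)
    obtain ⟨s, hs1, hs2⟩ := mem_closure_iff.1 hy _ hO (by simp)
    exact ⟨s, hs2, fun a ha => by simpa using mem_iInter₂.1 hs1 a ha⟩
  choose g hgS hg using hg
  rcases isEmpty_or_nonempty ι with hι | hι
  · refine ⟨fun _ => g ∅, fun _ => hgS ∅, ?_⟩
    exact D.tendsto_of_co fun a => (hι.false a).elim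
  have hen : ∀ w : D.X, ∃ f : ℕ → ι, {a | D.co a w = true} ⊆ range f := fun w =>
    (countable_iff_exists_subset_range).1 (D.countable_supp w)
  choose en hen using hen
  let F : ℕ → Finset D.X → Finset ι := fun n W => W.biUnion fun w => (Finset.range (n + 1)).image (en w)
  let W : ℕ → Finset D.X := fun n => Nat.rec {y} (fun n W => insert (g (F n W)) W) n
  have hW : ∀ n, W (n + 1) = insert (g (F n (W n))) (W n) := fun _ => rfl
  have hmono : Monotone W := monotone_nat_of_le_succ fun n => by
    rw [hW]; exact Finset.subset_insert _ _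
  refine ⟨fun n => g (F n (W n)), fun n => hgS _, ?_⟩
  refine D.tendsto_of_co fun a => ?_
  by_cases h : ∃ n, ∃ w ∈ W n, D.co a w = true
  · obtain ⟨n, w, hw, hwa⟩ := h
    obtain ⟨k, hk⟩ := hen w hwa
    filter_upwards [eventually_ge_atTop (max n k)] with m hm
    apply hg
    refine Finset.mem_biUnion.2 ⟨w, hmono (le_of_max_le_left hm) hw, ?_⟩
    exact Finset.mem_image.2 ⟨k, Finset.mem_range.2 (by
      have := le_of_max_le_right hm
      omega), hk⟩
  · push Not at h
    refine Eventually.of_forall fun n => ?_
    have h1 : D.co a (g (F n (W n))) ≠ true :=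
      h (n + 1) _ (by rw [hW]; exact Finset.mem_insert_self _ _)
    have h2 : D.co a y ≠ true := h 0 y (Finset.mem_singleton_self y)
    rw [ne_eq, Bool.not_eq_true] at h1 h2
    rw [h1, h2]

open Classical in
/-- The point of the space given by `t` and by the coordinates from `b` on. -/
noncomputable def pt (b : ι) (t : unitInterval) : D.X :=
  ⟨fun a => decide (b ≤ a ∧ t ∈ D.H a), fun F hF => ⟨t, mem_iInter₂.2 fun a ha => by
    have := hF a ha
    simp only [decide_eq_true_eq] at this
    exact this.2⟩⟩

theorem co_pt (b : ι) (t : unitInterval) (a : ι) : D.co a (D.pt b t) = true ↔ b ≤ a ∧ t ∈ D.H a := by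
  simp [co, pt]

/-- the zero point -/
def zero : D.X := ⟨fun _ => false, fun F hF => by
  rcases F.eq_empty_or_nonempty with h | ⟨a, ha⟩
  · subst h
    simp
  · exact absurd (hF a ha) (by simp)⟩

theorem co_zero (a : ι) : D.co a D.zero = false := rfl

theorem measurable_pt (b : ι) (f : C(D.X, ℝ)) : Measurable fun t => f (D.pt b t) := by
  let A : Subalgebra ℝ C(D.X, ℝ) :=
    { carrier := {f | Measurable fun t => f (D.pt b t)}
      mul_mem' := fun {f g} hf hg => by
        have hf' : Measurable fun t => f (D.pt b t) := hf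
        have hg' : Measurable fun t => g (D.pt b t) := hg
        exact hf'.mul hg'
      add_mem' := fun {f g} hf hg => by
        have hf' : Measurable fun t => f (D.pt b t) := hf
        have hg' : Measurable fun t => g (D.pt b t) := hg
        exact hf'.add hg'
      algebraMap_mem' := fun r => by
        change Measurable fun t => (algebraMap ℝ C(D.X, ℝ) r) (D.pt b t)
        simp }
  have hsep : A.SeparatesPoints := by
    intro x y hxy
    have : ∃ a, D.co a x ≠ D.co a y := by
      by_contra hcon
      push Not at hcon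
      exact hxy (Subtype.ext (funext hcon))
    obtain ⟨a, ha⟩ := this
    let φ : C(D.X, ℝ) := ⟨fun z => bif D.co a z then 1 else 0,
      (continuous_of_discreteTopology (f := fun b : Bool => (bif b then (1 : ℝ) else 0))).comp
        (D.continuous_co a)⟩
    refine ⟨φ, ⟨φ, ?_, rfl⟩, ?_⟩
    · change Measurable fun t => (bif D.co a (D.pt b t) then (1 : ℝ) else 0)
      have h1 : (fun t => (bif D.co a (D.pt b t) then (1 : ℝ) else 0)) =
          indicator {t | b ≤ a ∧ t ∈ D.H a} 1 := by
        funext t
        by_cases h : b ≤ a ∧ t ∈ D.H a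
        · rw [indicator_of_mem (by exact h)]
          rw [(D.co_pt b t a).2 h]
          rfl
        · rw [indicator_of_notMem (by exact h)]
          have : D.co a (D.pt b t) = false := by
            rw [← Bool.not_eq_true, D.co_pt]
            exact h
          rw [this]
          rfl
      rw [h1]
      refine measurable_one.indicator ?_
      by_cases h : b ≤ a
      · simp only [h, true_and]
        exact (D.comp a).isClosed.measurableSet
      · simp [h]
    · change (bif D.co a x then (1 : ℝ) else 0) ≠ (bif D.co a y then (1 : ℝ) else 0)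
      rcases hx : D.co a x with _ | _ <;> rcases hy : D.co a y with _ | _
      · exact absurd (hx.trans hy.symm) ha
      · simp
      · simp
      · exact absurd (hx.trans hy.symm) ha
  have htop := ContinuousMap.subalgebra_topologicalClosure_eq_top_of_separatesPoints A hsep
  have hf : f ∈ A.topologicalClosure := by rw [htop]; trivial
  have hf' : f ∈ closure (A : Set C(D.X, ℝ)) := hf
  obtain ⟨u, hu1, hu2⟩ := mem_closure_iff_seq_limit.1 hf'
  refine measurable_of_tendsto_metrizable (f := fun n t => u n (D.pt b t)) (fun n => hu1 n) ?_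
  refine tendsto_pi_nhds.2 fun t => ?_
  exact ((continuous_eval_const (D.pt b t)).tendsto f).comp hu2

theorem integrable_pt (b : ι) (f : C(D.X, ℝ)) :
    Integrable (fun t => f (D.pt b t)) (volume : Measure unitInterval) := by
  refine Integrable.of_bound (D.measurable_pt b f).aestronglyMeasurable ‖f‖ ?_
  exact Eventually.of_forall fun t => f.norm_coe_le_norm _

open scoped CompactlySupported in
theorem exists_mu (b : ι) : ∃ μ : ProbabilityMeasure D.X, (μ : Measure D.X).Regular ∧
    ∀ f : C(D.X, ℝ), ∫ x, f x ∂(μ : Measure D.X) = ∫ t, f (D.pt b t) := by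
  let Λ : C_c(D.X, ℝ) →ₚ[ℝ] ℝ :=
    { toFun := fun g => ∫ t, g (D.pt b t)
      map_add' := fun g g' => integral_add (D.integrable_pt b g) (D.integrable_pt b g')
      map_smul' := fun c g => integral_smul c _
      monotone' := fun g g' hgg' => integral_mono (D.integrable_pt b g) (D.integrable_pt b g')
        fun t => hgg' _ }
  have hint : ∀ f : C(D.X, ℝ), ∫ x, f x ∂(RealRMK.rieszMeasure Λ) = ∫ t, f (D.pt b t) := by
    intro f
    let f' : C_c(D.X, ℝ) := ⟨f, HasCompactSupport.of_compactSpace _⟩
    exact RealRMK.integral_rieszMeasure Λ f'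
  have h1 : (RealRMK.rieszMeasure Λ).real univ = 1 := by
    have := hint (ContinuousMap.const _ 1)
    simpa using this
  have hprob : IsProbabilityMeasure (RealRMK.rieszMeasure Λ) := by
    constructor
    have h2 : ((RealRMK.rieszMeasure Λ) univ).toReal = 1 := h1
    rw [ENNReal.toReal_eq_one_iff] at h2
    exact h2
  exact ⟨⟨RealRMK.rieszMeasure Λ, hprob⟩,
    inferInstanceAs (RealRMK.rieszMeasure Λ).Regular, hint⟩

/-- the measure `μ_b` -/
noncomputable def mu (b : ι) : ProbabilityMeasure D.X := (D.exists_mu b).choose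

theorem mu_regular (b : ι) : (D.mu b : Measure D.X).Regular := (D.exists_mu b).choose_spec.1

theorem integral_mu (b : ι) (f : C(D.X, ℝ)) :
    ∫ x, f x ∂(D.mu b : Measure D.X) = ∫ t, f (D.pt b t) := (D.exists_mu b).choose_spec.2 f

/-- The Dirac measure at zero. -/
noncomputable def dz : ProbabilityMeasure D.X := ⟨Measure.dirac D.zero, inferInstance⟩

theorem integral_dz (f : C(D.X, ℝ)) : ∫ x, f x ∂(D.dz : Measure D.X) = f D.zero := by
  change ∫ x, f x ∂(Measure.dirac D.zero) = f D.zero
  exact integral_dirac' _ _ f.continuous.stronglyMeasurable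

theorem tendsto_mu [Nonempty ι] : Tendsto D.mu atTop (𝓝 D.dz) := by
  rw [ProbabilityMeasure.tendsto_iff_forall_integral_tendsto]
  intro f
  have h1 : ∀ b, ∫ x, f x ∂(D.mu b : Measure D.X) = ∫ t, f (D.pt b t) := fun b =>
    D.integral_mu b f.toContinuousMap
  have h2 : ∫ x, f x ∂(D.dz : Measure D.X) = f D.zero := D.integral_dz f.toContinuousMap
  simp only [h1, h2]
  rw [Metric.tendsto_nhds]
  intro ε hε
  have h3 : ∀ᶠ x in 𝓝 D.zero, dist (f x) (f D.zero) < ε / 2 :=
    (f.continuous.tendsto D.zero) (Metric.ball_mem_nhds _ (half_pos hε))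
  have h4 : ∃ a, ∀ b, a < b → ∀ t, dist (f (D.pt b t)) (f D.zero) < ε / 2 := by
    by_contra hcon
    push Not at hcon
    choose b hb t ht using hcon
    have h5 : Tendsto (fun a => D.pt (b a) (t a)) atTop (𝓝 D.zero) := by
      refine D.tendsto_of_co fun c => ?_
      filter_upwards [eventually_ge_atTop c] with a ha
      rw [D.co_zero, ← Bool.not_eq_true, D.co_pt]
      rintro ⟨h6, -⟩
      exact absurd (h6.trans ha) (not_le.2 (hb a))
    obtain ⟨a, ha⟩ := (h5.eventually h3).exists
    exact absurd ha (not_lt.2 (ht a))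
  obtain ⟨a, ha⟩ := h4
  obtain ⟨a', ha'⟩ := D.unb {a} (countable_singleton a)
  filter_upwards [eventually_ge_atTop a'] with b hb
  have hab : a < b := (ha' a rfl).trans_le hb
  have h5 : Integrable (fun t => f (D.pt b t)) (volume : Measure unitInterval) :=
    D.integrable_pt b f.toContinuousMap
  have h6 : (∫ t, f (D.pt b t)) - f D.zero = ∫ t : unitInterval, (f (D.pt b t) - f D.zero) := by
    rw [integral_sub h5 (integrable_const _)]
    simp
  rw [Real.dist_eq, h6]
  have h7 : ‖∫ t : unitInterval, (f (D.pt b t) - f D.zero)‖ ≤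
      ε / 2 * (volume : Measure unitInterval).real univ := by
    apply norm_integral_le_of_norm_le_const
    refine Eventually.of_forall fun t => ?_
    have := ha b hab t
    rw [Real.dist_eq] at this
    exact this.le
  simp only [probReal_univ, mul_one] at h7
  rw [Real.norm_eq_abs] at h7
  linarith

/-- The test function of a coordinate. -/
def tf (a : ι) : C(D.X, ℝ) := ⟨fun z => bif D.co a z then 1 else 0,
  (continuous_of_discreteTopology (f := fun b : Bool => (bif b then (1 : ℝ) else 0))).comp
    (D.continuous_co a)⟩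

theorem integral_tf (b a : ι) (hab : b ≤ a) :
    (1 / 2 : ℝ) ≤ ∫ x, D.tf a x ∂(D.mu b : Measure D.X) := by
  rw [D.integral_mu]
  have h1 : (fun t => D.tf a (D.pt b t)) = indicator (D.H a) 1 := by
    funext t
    by_cases h : t ∈ D.H a
    · rw [indicator_of_mem h]
      change (bif D.co a (D.pt b t) then (1 : ℝ) else 0) = 1
      rw [(D.co_pt b t a).2 ⟨hab, h⟩]
      rfl
    · rw [indicator_of_notMem h]
      change (bif D.co a (D.pt b t) then (1 : ℝ) else 0) = 0
      have : D.co a (D.pt b t) = false := by
        rw [← Bool.not_eq_true, D.co_pt]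
        exact fun h' => h h'.2
      rw [this]
      rfl
  rw [h1, integral_indicator_one (D.comp a).isClosed.measurableSet]
  have h2 := D.big a
  have h3 : (volume : Measure unitInterval) (D.H a) ≠ ⊤ := measure_ne_top _ _
  have h4 : (1 / 2 : ENNReal).toReal ≤ ((volume : Measure unitInterval) (D.H a)).toReal :=
    ENNReal.toReal_mono h3 h2.le
  simpa [Measure.real] using h4

/-- No countable subset of the set of the measures `μ_b` has the Dirac measure in its closure. -/
theorem not_mem_closure (B : Set (ProbabilityMeasure D.X)) (hB : B ⊆ range D.mu)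
    (hBc : B.Countable) : D.dz ∉ closure B := by
  obtain ⟨T, hT, hTB⟩ : ∃ T : Set ι, T.Countable ∧ B ⊆ D.mu '' T := by
    rcases isEmpty_or_nonempty ι with hι | hι
    · refine ⟨∅, countable_empty, fun μ hμ => ?_⟩
      obtain ⟨b, -⟩ := hB hμ
      exact (hι.false b).elim
    have hB' : ∀ μ ∈ B, ∃ b, D.mu b = μ := fun μ hμ => hB hμ
    choose! g hg using hB'
    exact ⟨g '' B, hBc.image g, fun μ hμ => ⟨g μ, mem_image_of_mem g hμ, hg μ hμ⟩⟩
  obtain ⟨a, ha⟩ := D.unb T hT
  have hcl : IsClosed {μ : ProbabilityMeasure D.X | (1 / 2 : ℝ) ≤ ∫ x, D.tf a x ∂(μ : Measure D.X)} := by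
    refine isClosed_le continuous_const ?_
    have := continuous_iff_continuousAt.2 fun μ : ProbabilityMeasure D.X =>
      (ProbabilityMeasure.tendsto_iff_forall_integral_tendsto.1
        (tendsto_id (α := ProbabilityMeasure D.X) (x := 𝓝 μ))
        (BoundedContinuousFunction.mkOfCompact (D.tf a)))
    exact this
  intro hmem
  have h1 : D.dz ∈ {μ : ProbabilityMeasure D.X | (1 / 2 : ℝ) ≤ ∫ x, D.tf a x ∂(μ : Measure D.X)} := by
    refine closure_minimal ?_ hcl hmem
    intro μ hμ
    obtain ⟨b, hb, rfl⟩ := hTB hμ
    exact D.integral_tf b a (ha b hb).le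
  have h2 : (1 / 2 : ℝ) ≤ ∫ x, D.tf a x ∂(D.dz : Measure D.X) := h1
  rw [D.integral_dz] at h2
  change (1 / 2 : ℝ) ≤ (bif D.co a D.zero then (1 : ℝ) else 0) at h2
  rw [D.co_zero] at h2
  norm_num at h2

end Dat

end Pool.Agent.TH577.Tight
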